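import Pool.Agent.Y322.IV.Stm

/-!
# The set of closed billiard loops is closed (statement `S_CLOSED`)
-/

set_option autoImplicit false

open Set MeasureTheory Function Topology

namespace Pool.Agent.Y306.IV

open Pool.Agent.Y322.IV

/-- the index `min k n` -/
def ph (n k : ℕ) : Fin (n + 1) := ⟨min k n, by omega⟩

theorem ph_val {n k : ℕ} (hk : k ≤ n) : ((ph n k : Fin (n + 1)) : ℕ) = k := by
  simp [ph, hk]

section

variable {E : Type} [NormedAddCommGroup E] [InnerProductSpace ℝ E]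

theorem LoopAt.congr {h : E → ℝ} {G : E → E} {g : E → ℝ} {e y w : E} {n : ℕ} {c M a : ℝ}
    {p u p' u' : ℕ → E} {τ τ' : ℕ → ℝ} (H : LoopAt h G g e y w n c M a p u τ)
    (hp : ∀ k ≤ n, p' k = p k) (hu : ∀ k ≤ n, u' k = u k) (hτ : ∀ k < n, τ' k = τ k) :
    LoopAt h G g e y w n c M a p' u' τ' where
  ybd := H.ybd
  wbd := H.wbd
  abd := H.abd
  start := by rw [hp 0 (Nat.zero_le n)]; exact H.start
  dir := by rw [hu 0 (Nat.zero_le n)]; exact H.dir
  zero := fun k hk => by rw [hp k hk]; exact H.zero k hk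
  unit := fun k hk => by rw [hu k hk]; exact H.unit k hk
  out := fun k hk => by rw [hp k hk, hu k hk]; exact H.out k hk
  tlo := fun k hk => by rw [hτ k hk]; exact H.tlo k hk
  thi := fun k hk => by rw [hτ k hk]; exact H.thi k hk
  move := fun k hk => by rw [hp (k + 1) hk, hp k hk.le, hu k hk.le, hτ k hk]; exact H.move k hk
  neg := fun k hk => by rw [hp k hk.le, hu k hk.le, hτ k hk]; exact H.neg k hk
  refl := fun k hk => by rw [hp (k + 1) hk, hu (k + 1) hk, hu k hk.le]; exact H.refl k hk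
  ret := by rw [hp 0 (Nat.zero_le n), hp n le_rfl]; exact H.ret
  gpos := by rw [hp 0 (Nat.zero_le n)]; exact H.gpos
  gzero := fun k hk hkn => by rw [hp k hkn.le]; exact H.gzero k hk hkn
  nonret := by rw [hu 0 (Nat.zero_le n), hu (n - 1) (by omega)]; exact H.nonret

/-- the space of the data of a loop -/
abbrev Y (E : Type) (n : ℕ) : Type := ℝ × (Fin (n + 1) → E) × (Fin (n + 1) → E) × (Fin (n + 1) → ℝ)

theorem closed_C {T : Type} [TopologicalSpace T] (F : T → E → ℝ) (G : T → E → E) (g : E → ℝ)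
    (hF : Continuous (fun z : T × E => F z.1 z.2)) (hG : Continuous (fun z : T × E => G z.1 z.2))
    (hg : Continuous g) (e : E) (n : ℕ) (c M : ℝ) (hc : 0 < c) :
    IsClosed {z : (T × ((ℝ ∙ e)ᗮ × (ℝ ∙ e)ᗮ)) × Y E n | LoopAt (F z.1.1) (G z.1.1) g e
      (z.1.2.1 : E) (z.1.2.2 : E) n c M z.2.1 (fun k => z.2.2.1 (ph n k))
      (fun k => z.2.2.2.1 (ph n k)) (fun k => z.2.2.2.2 (ph n k))} := by
  set C := {z : (T × ((ℝ ∙ e)ᗮ × (ℝ ∙ e)ᗮ)) × Y E n | LoopAt (F z.1.1) (G z.1.1) g e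
      (z.1.2.1 : E) (z.1.2.2 : E) n c M z.2.1 (fun k => z.2.2.1 (ph n k))
      (fun k => z.2.2.2.1 (ph n k)) (fun k => z.2.2.2.2 (ph n k))} with hC
  apply isClosed_of_closure_subset
  intro z hz
  have key : ∀ S : Set ((T × ((ℝ ∙ e)ᗮ × (ℝ ∙ e)ᗮ)) × Y E n), IsClosed S → C ⊆ S → z ∈ S :=
    fun S hS h => closure_minimal h hS hz
  have cy : Continuous (fun z : (T × ((ℝ ∙ e)ᗮ × (ℝ ∙ e)ᗮ)) × Y E n => (z.1.2.1 : E)) := by
    fun_prop
  have cw : Continuous (fun z : (T × ((ℝ ∙ e)ᗮ × (ℝ ∙ e)ᗮ)) × Y E n => (z.1.2.2 : E)) := by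
    fun_prop
  have ca : Continuous (fun z : (T × ((ℝ ∙ e)ᗮ × (ℝ ∙ e)ᗮ)) × Y E n => z.2.1) := by
    fun_prop
  have cp : ∀ k, Continuous (fun z : (T × ((ℝ ∙ e)ᗮ × (ℝ ∙ e)ᗮ)) × Y E n =>
      z.2.2.1 (ph n k)) := by
    intro k; fun_prop
  have cu : ∀ k, Continuous (fun z : (T × ((ℝ ∙ e)ᗮ × (ℝ ∙ e)ᗮ)) × Y E n =>
      z.2.2.2.1 (ph n k)) := by
    intro k; fun_prop
  have ct : ∀ k, Continuous (fun z : (T × ((ℝ ∙ e)ᗮ × (ℝ ∙ e)ᗮ)) × Y E n =>
      z.2.2.2.2 (ph n k)) := by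
    intro k; fun_prop
  have cT : Continuous (fun z : (T × ((ℝ ∙ e)ᗮ × (ℝ ∙ e)ᗮ)) × Y E n => z.1.1) := by
    fun_prop
  have cF : ∀ q : (T × ((ℝ ∙ e)ᗮ × (ℝ ∙ e)ᗮ)) × Y E n → E, Continuous q →
      Continuous (fun z => F z.1.1 (q z)) := fun q hq => hF.comp (cT.prodMk hq)
  have cG : ∀ q : (T × ((ℝ ∙ e)ᗮ × (ℝ ∙ e)ᗮ)) × Y E n → E, Continuous q →
      Continuous (fun z => G z.1.1 (q z)) := fun q hq => hG.comp (cT.prodMk hq)
  have htlo : ∀ k < n, c ≤ z.2.2.2.2 (ph n k) := fun k hk =>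
    key {z | c ≤ z.2.2.2.2 (ph n k)} (isClosed_le continuous_const (ct k))
      (fun z hz => hz.tlo k hk)
  exact
    { ybd := key {z | ‖(z.1.2.1 : E)‖ ≤ M} (isClosed_le cy.norm continuous_const)
        (fun z hz => hz.ybd)
      wbd := key {z | ‖(z.1.2.2 : E)‖ ≤ M} (isClosed_le cw.norm continuous_const)
        (fun z hz => hz.wbd)
      abd := key {z | |z.2.1| ≤ M} (isClosed_le ca.abs continuous_const) (fun z hz => hz.abd)
      start := key {z | z.2.2.1 (ph n 0) = (z.1.2.1 : E) + z.2.1 • (e + (z.1.2.2 : E))}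
        (isClosed_eq (cp 0) (cy.add (ca.smul (continuous_const.add cw)))) (fun z hz => hz.start)
      dir := key {z | ‖e + (z.1.2.2 : E)‖ • z.2.2.2.1 (ph n 0) = e + (z.1.2.2 : E)}
        (isClosed_eq ((continuous_const.add cw).norm.smul (cu 0)) (continuous_const.add cw))
        (fun z hz => hz.dir)
      zero := fun k hk => key {z | F z.1.1 (z.2.2.1 (ph n k)) = 0}
        (isClosed_eq (cF _ (cp k)) continuous_const) (fun z hz => hz.zero k hk)
      unit := fun k hk => key {z | ‖z.2.2.2.1 (ph n k)‖ = 1}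
        (isClosed_eq (cu k).norm continuous_const) (fun z hz => hz.unit k hk)
      out := fun k hk => key {z | inner ℝ (z.2.2.2.1 (ph n k)) (G z.1.1 (z.2.2.1 (ph n k))) ≤ -c}
        (isClosed_le ((cu k).inner (cG _ (cp k))) continuous_const) (fun z hz => LoopAt.out hz k hk)
      tlo := htlo
      thi := fun k hk => key {z | z.2.2.2.2 (ph n k) ≤ M} (isClosed_le (ct k) continuous_const)
        (fun z hz => hz.thi k hk)
      move := fun k hk => key {z | z.2.2.1 (ph n (k + 1)) = z.2.2.1 (ph n k) +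
          z.2.2.2.2 (ph n k) • z.2.2.2.1 (ph n k)}
        (isClosed_eq (cp (k + 1)) ((cp k).add ((ct k).smul (cu k)))) (fun z hz => hz.move k hk)
      neg := by
        intro k hk s hs
        have hpos : 0 < z.2.2.2.2 (ph n k) := hc.trans_le (htlo k hk)
        set θ : ℝ := s / z.2.2.2.2 (ph n k) with hθ
        have hθ0 : 0 ≤ θ := div_nonneg hs.1 hpos.le
        have hθ1 : θ ≤ 1 := (div_le_one hpos).2 hs.2
        have h2 := key {z | F z.1.1 (z.2.2.1 (ph n k) + (θ * z.2.2.2.2 (ph n k)) •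
          z.2.2.2.1 (ph n k)) ≤ 0}
          (isClosed_le (cF _ ((cp k).add ((continuous_const.mul (ct k)).smul (cu k))))
            continuous_const)
          (fun z' hz' => hz'.neg k hk (θ * z'.2.2.2.2 (ph n k))
            (by
              have h3 : 0 < z'.2.2.2.2 (ph n k) := hc.trans_le (hz'.tlo k hk)
              exact ⟨by positivity, by nlinarith⟩))
        have h4 : θ * z.2.2.2.2 (ph n k) = s := div_mul_cancel₀ s hpos.ne'
        have h5 : F z.1.1 (z.2.2.1 (ph n k) + (θ * z.2.2.2.2 (ph n k)) •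
          z.2.2.2.1 (ph n k)) ≤ 0 := h2
        rw [h4] at h5
        exact h5
      refl := fun k hk => key {z | ‖G z.1.1 (z.2.2.1 (ph n (k + 1)))‖ ^ 2 •
          z.2.2.2.1 (ph n (k + 1)) = ‖G z.1.1 (z.2.2.1 (ph n (k + 1)))‖ ^ 2 •
          z.2.2.2.1 (ph n k) - (2 * inner ℝ (z.2.2.2.1 (ph n k))
            (G z.1.1 (z.2.2.1 (ph n (k + 1))))) • G z.1.1 (z.2.2.1 (ph n (k + 1)))}
        (isClosed_eq (((cG _ (cp (k + 1))).norm.pow 2).smul (cu (k + 1)))
          ((((cG _ (cp (k + 1))).norm.pow 2).smul (cu k)).sub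
            ((continuous_const.mul ((cu k).inner (cG _ (cp (k + 1))))).smul
              (cG _ (cp (k + 1)))))) (fun z hz => hz.refl k hk)
      ret := key {z | z.2.2.1 (ph n n) = z.2.2.1 (ph n 0)} (isClosed_eq (cp n) (cp 0))
        (fun z hz => hz.ret)
      gpos := key {z | c ≤ g (z.2.2.1 (ph n 0))}
        (isClosed_le continuous_const (hg.comp (cp 0))) (fun z hz => hz.gpos)
      gzero := fun k hk hkn => key {z | g (z.2.2.1 (ph n k)) = 0}
        (isClosed_eq (hg.comp (cp k)) continuous_const) (fun z hz => hz.gzero k hk hkn)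
      nonret := key {z | c ≤ ‖z.2.2.2.1 (ph n (n - 1)) + z.2.2.2.1 (ph n 0)‖}
        (isClosed_le continuous_const ((cu (n - 1)).add (cu 0)).norm) (fun z hz => hz.nonret) }

/-- the data of a loop are bounded -/
theorem bound {h : E → ℝ} {G : E → E} {g : E → ℝ} {e y w : E} {n : ℕ} {c M a : ℝ}
    {p u : ℕ → E} {τ : ℕ → ℝ} (hc : 0 < c) (H : LoopAt h G g e y w n c M a p u τ) :
    ∀ k ≤ n, ‖p k‖ ≤ M + M * (‖e‖ + M) + k * M := by
  have hM : 0 ≤ M := (norm_nonneg y).trans H.ybd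
  intro k
  induction k with
  | zero =>
    intro _
    rw [H.start]
    refine (norm_add_le _ _).trans ?_
    rw [norm_smul, Real.norm_eq_abs]
    have h1 : ‖e + w‖ ≤ ‖e‖ + M := (norm_add_le _ _).trans (by linarith [H.wbd])
    have h2 : |a| * ‖e + w‖ ≤ M * (‖e‖ + M) :=
      mul_le_mul H.abd h1 (norm_nonneg _) hM
    have := H.ybd
    push_cast
    linarith
  | succ k ih =>
    intro hk
    have h1 := ih (by omega)
    rw [H.move k hk]
    refine (norm_add_le _ _).trans ?_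
    rw [norm_smul, Real.norm_eq_abs, H.unit k (by omega), mul_one,
      abs_of_nonneg (hc.le.trans (H.tlo k hk))]
    have := H.thi k hk
    push_cast
    linarith

end

theorem prove_closed : S_CLOSED := by
  intro E _ _ _ T _ F G g hF hG hg e n c M hc
  have : ProperSpace E := FiniteDimensional.proper_real E
  set R : ℝ := |M| + |M| * (‖e‖ + |M|) + n * |M| + 1 with hR
  have hR0 : 0 ≤ R := by positivity
  set B : Set (Y E n) := Metric.closedBall 0 R with hB
  have hBc : CompactSpace B := isCompact_iff_compactSpace.1 (isCompact_closedBall _ _)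
  have hcl := closed_C F G g hF hG hg e n c M hc
  have hcl2 : IsClosed {z : (T × ((ℝ ∙ e)ᗮ × (ℝ ∙ e)ᗮ)) × B | LoopAt (F z.1.1) (G z.1.1) g e
      (z.1.2.1 : E) (z.1.2.2 : E) n c M (z.2 : Y E n).1 (fun k => (z.2 : Y E n).2.1 (ph n k))
      (fun k => (z.2 : Y E n).2.2.1 (ph n k)) (fun k => (z.2 : Y E n).2.2.2 (ph n k))} :=
    hcl.preimage (f := fun z : (T × ((ℝ ∙ e)ᗮ × (ℝ ∙ e)ᗮ)) × B => (z.1, (z.2 : Y E n)))
      (by fun_prop)
  have himg := (isClosedMap_fst_of_compactSpace (X := T × ((ℝ ∙ e)ᗮ × (ℝ ∙ e)ᗮ)) (Y := B)) _ hcl2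
  convert himg using 1
  ext z
  constructor
  · rintro ⟨a, p, u, τ, H⟩
    have hM : 0 ≤ M := (norm_nonneg _).trans H.ybd
    have hb := bound hc H
    have hnn : (0 : ℝ) ≤ n := Nat.cast_nonneg n
    have hRM : R = M + M * (‖e‖ + M) + n * M + 1 := by rw [hR, abs_of_nonneg hM]
    have hMe : 0 ≤ M * (‖e‖ + M) := by positivity
    have hnM : 0 ≤ n * M := by positivity
    let y : Y E n := (a, (fun k : Fin (n + 1) => p k), (fun k : Fin (n + 1) => u k),
      (fun k : Fin (n + 1) => if (k : ℕ) < n then τ k else 0))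
    have hy : y ∈ B := by
      rw [hB, mem_closedBall_zero_iff]
      refine max_le ?_ (max_le ?_ (max_le ?_ ?_))
      · show ‖a‖ ≤ R
        rw [Real.norm_eq_abs]
        have := H.abd
        linarith
      · refine (pi_norm_le_iff_of_nonneg hR0).2 fun k => ?_
        have h1 := hb k (by omega)
        have h2 : ((k : ℕ) : ℝ) ≤ n := by exact_mod_cast (by omega : (k : ℕ) ≤ n)
        have h3 : ((k : ℕ) : ℝ) * M ≤ n * M := mul_le_mul_of_nonneg_right h2 hM
        show ‖p k‖ ≤ R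
        linarith
      · refine (pi_norm_le_iff_of_nonneg hR0).2 fun k => ?_
        show ‖u k‖ ≤ R
        rw [H.unit k (by omega)]
        linarith
      · refine (pi_norm_le_iff_of_nonneg hR0).2 fun k => ?_
        show ‖(if (k : ℕ) < n then τ k else 0)‖ ≤ R
        split_ifs with hk
        · rw [Real.norm_eq_abs, abs_of_nonneg (hc.le.trans (H.tlo k hk))]
          have := H.thi k hk
          linarith
        · rw [norm_zero]
          exact hR0
    refine ⟨(z, ⟨y, hy⟩), ?_, rfl⟩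
    refine LoopAt.congr H (fun k hk => ?_) (fun k hk => ?_) (fun k hk => ?_)
    · show p ((ph n k : Fin (n + 1)) : ℕ) = p k
      rw [ph_val hk]
    · show u ((ph n k : Fin (n + 1)) : ℕ) = u k
      rw [ph_val hk]
    · show (if ((ph n k : Fin (n + 1)) : ℕ) < n then τ ((ph n k : Fin (n + 1)) : ℕ) else 0) = τ k
      rw [ph_val hk.le, if_pos hk]
  · rintro ⟨⟨z', y⟩, H, rfl⟩
    exact ⟨_, _, _, _, H⟩

end Pool.Agent.Y306.IV
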